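import Pool.Agent.helper74.VDI.SpecF

set_option autoImplicit false

open scoped ContDiff Topology InnerProductSpace ENNReal ComplexConjugate
open MeasureTheory Filter Set

namespace Pool.Agent.VDI

open Pool.Agent.RPQ (PN PJ UN upd)
open Pool.Agent.VQ (CH rk)
open Pool.Agent.VN (aN)
open Pool.Agent.VD
open Pool.Agent.VDE (UWLD FDX)

noncomputable section

/-- the partial iterated derivative -/
theorem FBL_part {E X F : Type} [NormedAddCommGroup E] [NormedSpace ℝ E] [NormedAddCommGroup X] [NormedSpace ℝ X]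
    [NormedAddCommGroup F] [NormedSpace ℝ F] (g : E × X → F) (hg : ContDiff ℝ ∞ g) (n : ℕ) (s : E) (x : X) :
    iteratedFDeriv ℝ n (fun y => g (s, y)) x =
      (iteratedFDeriv ℝ n g (s, x)).compContinuousLinearMap (fun _ => ContinuousLinearMap.inr ℝ E X) := by
  have h1 : (fun y => g (s, y)) = (fun z => g ((s, 0) + z)) ∘ (ContinuousLinearMap.inr ℝ E X) := by
    funext y
    simp
  have h2 : ContDiff ℝ ∞ (fun z : E × X => g ((s, 0) + z)) := hg.comp (contDiff_const.add contDiff_id)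
  rw [h1, ContinuousLinearMap.iteratedFDeriv_comp_right (ContinuousLinearMap.inr ℝ E X) h2 x (i := n) (by exact_mod_cast le_top)]
  rw [iteratedFDeriv_comp_add_left]
  simp

theorem FBL_smooth {E X F : Type} [NormedAddCommGroup E] [NormedSpace ℝ E] [NormedAddCommGroup X] [NormedSpace ℝ X]
    [NormedAddCommGroup F] [NormedSpace ℝ F] (g : E × X → F) (hg : ContDiff ℝ ∞ g) (n : ℕ) :
    ContDiff ℝ ∞ (fun q : E × X => iteratedFDeriv ℝ n (fun y => g (q.1, y)) q.2) := by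
  have h0 : (fun q : E × X => iteratedFDeriv ℝ n (fun y => g (q.1, y)) q.2) =
      fun q : E × X => ContinuousMultilinearMap.compContinuousLinearMapL (fun _ => ContinuousLinearMap.inr ℝ E X) (iteratedFDeriv ℝ n g q) := by
    funext q
    rw [FBL_part g hg n q.1 q.2]
    rfl
  rw [h0]
  exact (ContinuousLinearMap.contDiff _).comp (hg.iteratedFDeriv_right (by norm_cast))

/-- bound and Lipschitz constant on a compact convex product of balls -/
theorem FBL_bound {E X F : Type} [NormedAddCommGroup E] [NormedSpace ℝ E] [FiniteDimensional ℝ E] [NormedAddCommGroup X] [NormedSpace ℝ X]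
    [FiniteDimensional ℝ X] [NormedAddCommGroup F] [NormedSpace ℝ F] (g : E × X → F) (hg : ContDiff ℝ ∞ g) (S R : ℝ) :
    ∃ C : ℝ, 0 ≤ C ∧ (∀ (s : E) (x : X), ‖s‖ ≤ S → ‖x‖ ≤ R → ‖g (s, x)‖ ≤ C) ∧
      ∀ (s s' : E) (x : X), ‖s‖ ≤ S → ‖s'‖ ≤ S → ‖x‖ ≤ R → ‖g (s, x) - g (s', x)‖ ≤ C * ‖s - s'‖ := by
  have hE : ProperSpace E := FiniteDimensional.proper ℝ E
  have hX : ProperSpace X := FiniteDimensional.proper ℝ X
  have hc : IsCompact (Metric.closedBall (0 : E) S ×ˢ Metric.closedBall (0 : X) R) :=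
    (isCompact_closedBall _ _).prod (isCompact_closedBall _ _)
  obtain ⟨C1, h1⟩ := hc.exists_bound_of_continuousOn hg.continuous.continuousOn
  obtain ⟨C2, h2⟩ := hc.exists_bound_of_continuousOn ((hg.continuous_fderiv (by norm_num)).continuousOn)
  have hcv : Convex ℝ (Metric.closedBall (0 : E) S ×ˢ Metric.closedBall (0 : X) R) :=
    (convex_closedBall _ _).prod (convex_closedBall _ _)
  refine ⟨|C1| + |C2|, by positivity, ?_, ?_⟩
  · intro s x hs hx
    have h3 := h1 (s, x) (Set.mk_mem_prod (by simpa using hs) (by simpa using hx))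
    have h4 := le_abs_self C1
    have h5 := abs_nonneg C2
    linarith
  · intro s s' x hs hs' hx
    have h3 : ((s, x) : E × X) ∈ Metric.closedBall (0 : E) S ×ˢ Metric.closedBall (0 : X) R := Set.mk_mem_prod (by simpa using hs) (by simpa using hx)
    have h4 : ((s', x) : E × X) ∈ Metric.closedBall (0 : E) S ×ˢ Metric.closedBall (0 : X) R := Set.mk_mem_prod (by simpa using hs') (by simpa using hx)
    have h5 := hcv.norm_image_sub_le_of_norm_fderiv_le (𝕜 := ℝ) (f := g) (C := C2)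
      (fun z _ => (hg.differentiable (by norm_num)).differentiableAt) h2 h4 h3
    have h6 : ‖((s, x) : E × X) - (s', x)‖ = ‖s - s'‖ := by
      rw [Prod.mk_sub_mk, sub_self, Prod.norm_mk, norm_zero, max_eq_left (norm_nonneg _)]
    rw [h6] at h5
    refine h5.trans (mul_le_mul_of_nonneg_right ?_ (norm_nonneg _))
    have h7 := le_abs_self C2
    have h8 := abs_nonneg C1
    linarith

/-- uniform lower bound of a continuous family of positive forms -/
theorem FBL_lower {E X : Type} [NormedAddCommGroup E] [NormedSpace ℝ E] [FiniteDimensional ℝ E] [NormedAddCommGroup X] [InnerProductSpace ℝ X]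
    [FiniteDimensional ℝ X] (g : E × X → X →L[ℝ] X) (hg : Continuous g) (hpos : ∀ q u, u ≠ 0 → 0 < ⟪g q u, u⟫_ℝ) (S R : ℝ) :
    ∃ C : ℝ, 0 ≤ C ∧ ∀ (s : E) (x u : X), ‖s‖ ≤ S → ‖x‖ ≤ R → ‖u‖ ^ 2 ≤ C * ⟪g (s, x) u, u⟫_ℝ := by
  have hE : ProperSpace E := FiniteDimensional.proper ℝ E
  have hX : ProperSpace X := FiniteDimensional.proper ℝ X
  have hc : IsCompact ((Metric.closedBall (0 : E) S ×ˢ Metric.closedBall (0 : X) R) ×ˢ Metric.sphere (0 : X) 1) :=
    ((isCompact_closedBall _ _).prod (isCompact_closedBall _ _)).prod (isCompact_sphere _ _)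
  have hcont2 : ContinuousOn (fun p : (E × X) × X => (⟪g p.1 p.2, p.2⟫_ℝ)⁻¹)
      ((Metric.closedBall (0 : E) S ×ˢ Metric.closedBall (0 : X) R) ×ˢ Metric.sphere (0 : X) 1) := by
    refine ContinuousOn.inv₀ ?_ ?_
    · refine Continuous.continuousOn ?_
      exact ((hg.comp continuous_fst).clm_apply continuous_snd).inner continuous_snd
    · intro p hp
      have h1 : p.2 ≠ 0 := by
        intro h0
        have h2 : p.2 ∈ Metric.sphere (0 : X) 1 := hp.2
        rw [h0] at h2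
        simp at h2
      exact (hpos p.1 p.2 h1).ne'
  obtain ⟨C, hC⟩ := hc.exists_bound_of_continuousOn hcont2
  refine ⟨|C|, abs_nonneg C, ?_⟩
  intro s x u hs hx
  by_cases hu : u = 0
  · rw [hu]
    simp
  have hn : 0 < ‖u‖ := norm_pos_iff.mpr hu
  have h1 := hC ((s, x), ‖u‖⁻¹ • u) ⟨Set.mk_mem_prod (by simpa using hs) (by simpa using hx), by
    rw [mem_sphere_zero_iff_norm, norm_smul, norm_inv, norm_norm]
    exact inv_mul_cancel₀ hn.ne'⟩
  have h2 : ⟪g (s, x) (‖u‖⁻¹ • u), ‖u‖⁻¹ • u⟫_ℝ = (‖u‖ ^ 2)⁻¹ * ⟪g (s, x) u, u⟫_ℝ := by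
    rw [map_smul, real_inner_smul_left, real_inner_smul_right]
    field_simp
  have h3 := hpos (s, x) u hu
  simp only [h2] at h1
  rw [Real.norm_eq_abs, abs_of_pos (by positivity)] at h1
  have h4 : ((‖u‖ ^ 2)⁻¹ * ⟪g (s, x) u, u⟫_ℝ)⁻¹ ≤ |C| := h1.trans (le_abs_self C)
  rw [mul_inv, inv_inv] at h4
  calc ‖u‖ ^ 2 = (‖u‖ ^ 2 * (⟪g (s, x) u, u⟫_ℝ)⁻¹) * ⟪g (s, x) u, u⟫_ℝ := by
        field_simp
    _ ≤ |C| * ⟪g (s, x) u, u⟫_ℝ := mul_le_mul_of_nonneg_right h4 h3.le

theorem FBL_proof : FBL_stmt := by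
  intro d m Gs S hG hM
  have hb : ∀ (m' n : ℕ), ∃ C : ℝ, 0 ≤ C ∧ (∀ (s : V m) (x : V d), ‖s‖ ≤ S → ‖x‖ ≤ m' → ‖iteratedFDeriv ℝ n (Gs s) x‖ ≤ C) ∧
      ∀ (s s' : V m) (x : V d), ‖s‖ ≤ S → ‖s'‖ ≤ S → ‖x‖ ≤ m' → ‖iteratedFDeriv ℝ n (Gs s) x - iteratedFDeriv ℝ n (Gs s') x‖ ≤ C * ‖s - s'‖ := by
    intro m' n
    exact FBL_bound (fun q : V m × V d => iteratedFDeriv ℝ n (Gs q.1) q.2) (FBL_smooth (fun q : V m × V d => Gs q.1 q.2) hG n) S m'
  have hl : ∀ (m' : ℕ), ∃ C : ℝ, 0 ≤ C ∧ ∀ (s : V m) (x u : V d), ‖s‖ ≤ S → ‖x‖ ≤ m' → ‖u‖ ^ 2 ≤ C * ⟪Gs s x u, u⟫_ℝ := by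
    intro m'
    exact FBL_lower (fun q : V m × V d => Gs q.1 q.2) hG.continuous (fun q u hu => (hM q.1).pos q.2 u hu) S m'
  choose C hC0 hC1 hC2 using hb
  choose D hD0 hD1 using hl
  refine ⟨fun m' n => 1 + C m' n + D m', ?_, ?_, ?_, ?_⟩
  · intro m' n
    have h1 := hC0 m' n
    have h2 := hD0 m'
    simp only
    linarith
  · intro m' n s x hs hx
    have h1 := hC1 m' n s x hs hx
    have h2 := hD0 m'
    simp only
    linarith
  · intro m' s x u hs hx
    have h1 := hD1 m' s x u hs hx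
    have h2 : 0 ≤ ⟪Gs s x u, u⟫_ℝ := by
      by_cases hu : u = 0
      · rw [hu]
        simp
      · exact ((hM s).pos x u hu).le
    have h3 := hC0 m' 0
    refine h1.trans (mul_le_mul_of_nonneg_right ?_ h2)
    simp only
    linarith
  · intro m' n s s' x hs hs' hx
    have h1 := hC2 m' n s s' x hs hs' hx
    have h2 : iteratedFDeriv ℝ n (fun y => Gs s y - Gs s' y) x = iteratedFDeriv ℝ n (Gs s) x - iteratedFDeriv ℝ n (Gs s') x := by
      have h3 : (fun y => Gs s y - Gs s' y) = Gs s - Gs s' := rfl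
      rw [h3]
      exact iteratedFDeriv_sub_apply ((hM s).smooth.contDiffAt.of_le (by exact_mod_cast le_top)) ((hM s').smooth.contDiffAt.of_le (by exact_mod_cast le_top))
    rw [h2]
    refine h1.trans (mul_le_mul_of_nonneg_right ?_ (norm_nonneg _))
    have h4 := hD0 m'
    simp only
    linarith

end

end Pool.Agent.VDI
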