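import Pool.Agent.helper55.VDI.SpecB1
import Pool.Agent.helper40.VD.EHD

set_option autoImplicit false

open scoped ContDiff Topology InnerProductSpace ComplexConjugate ENNReal
open MeasureTheory Filter Set

namespace Pool.Agent.VDI

open Pool.Agent.VD
open Pool.Agent.VQ (CH KZ PS perZ cmZ)
open Pool.Agent.RPQ (IsOp)
open Pool.Agent.VDA (STP FB FR FT nY OY OA)
open Pool.Agent.VDE (FDX)

noncomputable section

/-- the weighted coefficients -/
def LPB_A {d : ℕ} (G : V d → V d →L[ℝ] V d) (y : V d) : V d →L[ℝ] V d := dens G y • IG G y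

theorem LPB_lap {d : ℕ} (G : V d → V d →L[ℝ] V d) (hG : IsMetric G) (ψ : V d → ℂ) (hψ : ContDiff ℝ 2 ψ) (x : V d) :
    ((dens G x : ℝ) : ℂ) * lap G ψ x = ∑ i : Fin d, (fderiv ℝ ψ x ((fderiv ℝ (LPB_A G) x (EuclideanSpace.single i 1)) (EuclideanSpace.single i 1)) +
      (fderiv ℝ (fderiv ℝ ψ) x (EuclideanSpace.single i 1)) (LPB_A G x (EuclideanSpace.single i 1))) := by
  obtain ⟨h1, h2, h3, -, -, -, -⟩ := EHD_proof d G hG
  have hne : ((dens G x : ℝ) : ℂ) ≠ 0 := by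
    exact_mod_cast (h1 x).2.ne'
  have hA : ContDiff ℝ ∞ (LPB_A G) := by
    have h4 : ContDiff ℝ ∞ (IG G) := h3
    exact h2.smul h4
  have hDψ : DifferentiableAt ℝ (fderiv ℝ ψ) x := by
    have h5 : ContDiff ℝ 1 (fderiv ℝ ψ) := hψ.fderiv_right (by norm_num)
    exact (h5.differentiable (by norm_num)).differentiableAt
  unfold lap
  rw [← mul_assoc]
  have h6 : ((dens G x : ℝ) : ℂ) * (((dens G x)⁻¹ : ℝ) : ℂ) = 1 := by
    rw [Complex.ofReal_inv]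
    exact mul_inv_cancel₀ hne
  rw [h6, one_mul]
  refine Finset.sum_congr rfl ?_
  intro i _
  have h7 : (fun y => ((dens G y : ℝ) : ℂ) * fderiv ℝ ψ y ((G y).inverse (EuclideanSpace.single i 1))) =
      fun y => fderiv ℝ ψ y (LPB_A G y (EuclideanSpace.single i 1)) := by
    funext y
    unfold LPB_A IG
    rw [smul_apply, map_smul, Complex.real_smul]
  rw [h7]
  have hA1 : HasFDerivAt (LPB_A G) (fderiv ℝ (LPB_A G) x) x := ((hA.differentiable (by norm_num)).differentiableAt).hasFDerivAt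
  have h8 : HasFDerivAt (fun y => LPB_A G y (EuclideanSpace.single i 1)) ((fderiv ℝ (LPB_A G) x).flip (EuclideanSpace.single i 1)) x := by
    have h9 := hA1.clm_apply (hasFDerivAt_const (EuclideanSpace.single i (1 : ℝ) : V d) x)
    simpa using h9
  have h10 := (hDψ.hasFDerivAt).clm_apply h8
  rw [h10.fderiv]
  simp

theorem LPB_proof (hLPA : LPA_stmt) : LPB_stmt := by
  intro d Γ _ _ K k B b r hK
  obtain ⟨C, hC1, hC⟩ := hLPA d Γ K k B b r
  refine ⟨C * (d + 1), ?_, ?_⟩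
  · have h1 : (0 : ℝ) ≤ d := Nat.cast_nonneg d
    nlinarith
  intro R G G' ψ x hR hG hNr hψ hx
  obtain ⟨hd, -, hA, hDA⟩ := hC R G G' x hR hG hNr hx
  have hR0 : 0 < R := by linarith
  obtain ⟨P, hP⟩ : ∃ P : ℝ, P = R ^ (-LX d) := ⟨_, rfl⟩
  have hP0 : 0 ≤ P := by
    rw [hP]
    exact Real.rpow_nonneg hR0.le _
  rw [← hP] at hd hA hDA ⊢
  have hl1 := LPB_lap G hG.met ψ hψ x
  have hl2 := LPB_lap G' hNr.cls.met ψ hψ x
  have hdiff : ‖((dens G x : ℝ) : ℂ) * lap G ψ x - ((dens G' x : ℝ) : ℂ) * lap G' ψ x‖ ≤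
      d * (C * P * (‖fderiv ℝ ψ x‖ + ‖fderiv ℝ (fderiv ℝ ψ) x‖)) := by
    rw [hl1, hl2, ← Finset.sum_sub_distrib]
    have h1 : ∀ i ∈ (Finset.univ : Finset (Fin d)), ‖(fderiv ℝ ψ x ((fderiv ℝ (LPB_A G) x (EuclideanSpace.single i 1)) (EuclideanSpace.single i 1)) +
        (fderiv ℝ (fderiv ℝ ψ) x (EuclideanSpace.single i 1)) (LPB_A G x (EuclideanSpace.single i 1))) -
        (fderiv ℝ ψ x ((fderiv ℝ (LPB_A G') x (EuclideanSpace.single i 1)) (EuclideanSpace.single i 1)) +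
        (fderiv ℝ (fderiv ℝ ψ) x (EuclideanSpace.single i 1)) (LPB_A G' x (EuclideanSpace.single i 1)))‖ ≤
        C * P * (‖fderiv ℝ ψ x‖ + ‖fderiv ℝ (fderiv ℝ ψ) x‖) := by
      intro i _
      have he : ‖(EuclideanSpace.single i (1 : ℝ) : V d)‖ = 1 := by simp
      have h2 : (fderiv ℝ ψ x ((fderiv ℝ (LPB_A G) x (EuclideanSpace.single i 1)) (EuclideanSpace.single i 1)) +
        (fderiv ℝ (fderiv ℝ ψ) x (EuclideanSpace.single i 1)) (LPB_A G x (EuclideanSpace.single i 1))) -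
        (fderiv ℝ ψ x ((fderiv ℝ (LPB_A G') x (EuclideanSpace.single i 1)) (EuclideanSpace.single i 1)) +
        (fderiv ℝ (fderiv ℝ ψ) x (EuclideanSpace.single i 1)) (LPB_A G' x (EuclideanSpace.single i 1))) =
        fderiv ℝ ψ x (((fderiv ℝ (LPB_A G) x - fderiv ℝ (LPB_A G') x) (EuclideanSpace.single i 1)) (EuclideanSpace.single i 1)) +
        (fderiv ℝ (fderiv ℝ ψ) x (EuclideanSpace.single i 1)) ((LPB_A G x - LPB_A G' x) (EuclideanSpace.single i 1)) := by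
        rw [sub_apply, sub_apply, sub_apply, map_sub, map_sub]
        ring
      rw [h2]
      have h3 : ‖fderiv ℝ ψ x (((fderiv ℝ (LPB_A G) x - fderiv ℝ (LPB_A G') x) (EuclideanSpace.single i 1)) (EuclideanSpace.single i 1))‖ ≤
          ‖fderiv ℝ ψ x‖ * (C * P) := by
        refine (ContinuousLinearMap.le_opNorm _ _).trans (mul_le_mul_of_nonneg_left ?_ (norm_nonneg _))
        refine (ContinuousLinearMap.le_opNorm _ _).trans ?_
        rw [he, mul_one]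
        refine (ContinuousLinearMap.le_opNorm _ _).trans ?_
        rw [he, mul_one]
        exact hDA
      have h4 : ‖(fderiv ℝ (fderiv ℝ ψ) x (EuclideanSpace.single i 1)) ((LPB_A G x - LPB_A G' x) (EuclideanSpace.single i 1))‖ ≤
          ‖fderiv ℝ (fderiv ℝ ψ) x‖ * (C * P) := by
        refine (ContinuousLinearMap.le_opNorm _ _).trans ?_
        have h5 : ‖fderiv ℝ (fderiv ℝ ψ) x (EuclideanSpace.single i 1)‖ ≤ ‖fderiv ℝ (fderiv ℝ ψ) x‖ := by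
          refine (ContinuousLinearMap.le_opNorm _ _).trans ?_
          rw [he, mul_one]
        have h6 : ‖(LPB_A G x - LPB_A G' x) (EuclideanSpace.single i 1)‖ ≤ C * P := by
          refine (ContinuousLinearMap.le_opNorm _ _).trans ?_
          rw [he, mul_one]
          exact hA
        exact mul_le_mul h5 h6 (norm_nonneg _) (ContinuousLinearMap.opNorm_nonneg _)
      refine (norm_add_le _ _).trans ?_
      nlinarith
    refine (norm_sum_le _ _).trans ((Finset.sum_le_sum h1).trans ?_)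
    simp
  have hdd : ‖((dens G x : ℝ) : ℂ) - ((dens G' x : ℝ) : ℂ)‖ ≤ C * P := by
    rw [← Complex.ofReal_sub, Complex.norm_real, Real.norm_eq_abs]
    exact hd
  have hmain : ((dens G x : ℝ) : ℂ) * Hop G R ψ x - ((dens G' x : ℝ) : ℂ) * Hop G' R ψ x =
      (((2 * R)⁻¹ : ℝ) : ℂ) * (-(((dens G x : ℝ) : ℂ) * lap G ψ x - ((dens G' x : ℝ) : ℂ) * lap G' ψ x) -
        ((R ^ 2 : ℝ) : ℂ) * ((((dens G x : ℝ) : ℂ) - ((dens G' x : ℝ) : ℂ)) * ψ x)) := by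
    unfold Hop
    ring
  rw [hmain, norm_mul, Complex.norm_real, Real.norm_eq_abs, abs_of_pos (by positivity)]
  have hN1 : 0 ≤ ‖fderiv ℝ ψ x‖ := norm_nonneg _
  have hN2 : 0 ≤ ‖fderiv ℝ (fderiv ℝ ψ) x‖ := ContinuousLinearMap.opNorm_nonneg _
  have hN0 : 0 ≤ ‖ψ x‖ := norm_nonneg _
  have hd0 : (0 : ℝ) ≤ d := Nat.cast_nonneg d
  have hC0 : 0 ≤ C := by linarith
  have h9 : ‖-(((dens G x : ℝ) : ℂ) * lap G ψ x - ((dens G' x : ℝ) : ℂ) * lap G' ψ x) -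
        ((R ^ 2 : ℝ) : ℂ) * ((((dens G x : ℝ) : ℂ) - ((dens G' x : ℝ) : ℂ)) * ψ x)‖ ≤
      d * (C * P * (‖fderiv ℝ ψ x‖ + ‖fderiv ℝ (fderiv ℝ ψ) x‖)) + R ^ 2 * (C * P * ‖ψ x‖) := by
    refine (norm_sub_le _ _).trans (add_le_add ?_ ?_)
    · rw [norm_neg]
      exact hdiff
    · rw [norm_mul, norm_mul, Complex.norm_real, Real.norm_eq_abs, abs_of_pos (by positivity)]
      exact mul_le_mul_of_nonneg_left (mul_le_mul_of_nonneg_right hdd hN0) (by positivity)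
  refine (mul_le_mul_of_nonneg_left h9 (by positivity)).trans ?_
  have h10 : d * (C * P * (‖fderiv ℝ ψ x‖ + ‖fderiv ℝ (fderiv ℝ ψ) x‖)) + R ^ 2 * (C * P * ‖ψ x‖) ≤
      R ^ 2 * (C * (d + 1) * P * (‖ψ x‖ + ‖fderiv ℝ ψ x‖ + ‖fderiv ℝ (fderiv ℝ ψ) x‖)) := by
    have hR2 : 1 ≤ R ^ 2 := one_le_pow₀ hR
    have h11 : 0 ≤ C * P := by positivity
    have h12 : d * (C * P * (‖fderiv ℝ ψ x‖ + ‖fderiv ℝ (fderiv ℝ ψ) x‖)) ≤
        R ^ 2 * (d * (C * P * (‖fderiv ℝ ψ x‖ + ‖fderiv ℝ (fderiv ℝ ψ) x‖))) :=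
      le_mul_of_one_le_left (by positivity) hR2
    have h13 : 0 ≤ R ^ 2 * (C * P * (d * ‖ψ x‖ + ‖fderiv ℝ ψ x‖ + ‖fderiv ℝ (fderiv ℝ ψ) x‖)) := by positivity
    nlinarith
  refine (mul_le_mul_of_nonneg_left h10 (by positivity)).trans ?_
  have h14 : (2 * R)⁻¹ * (R ^ 2 * (C * (d + 1) * P * (‖ψ x‖ + ‖fderiv ℝ ψ x‖ + ‖fderiv ℝ (fderiv ℝ ψ) x‖))) =
      (1 / 2) * (C * (d + 1) * R * P * (‖ψ x‖ + ‖fderiv ℝ ψ x‖ + ‖fderiv ℝ (fderiv ℝ ψ) x‖)) := by
    field_simp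
  rw [h14]
  have h15 : 0 ≤ C * (d + 1) * R * P * (‖ψ x‖ + ‖fderiv ℝ ψ x‖ + ‖fderiv ℝ (fderiv ℝ ψ) x‖) := by positivity
  linarith

end

end Pool.Agent.VDI
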